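import Pool.Agent.Helper30.LZ.Taylor

/-!
# The two variable inequality behind (R)
-/

set_option autoImplicit false

namespace Pool.Agent.Helper30.LZ

/-- the one variable polynomial -/
theorem poly_one {v : ℝ} (hv0 : 0 ≤ v) (hv : v ≤ 10661 / 10000) :
    0 ≤ 33 / 25 * (71 / 80) - 187 / 625 * v ^ 2 + 2 / 45 * v ^ 4 - v ^ 6 / 315
      - 2 * v * (11 / 25 - 187 / 6250 * v ^ 2 + (512 / 15625 / 700 + 1 / 720) * v ^ 4) := by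
  obtain ⟨w, hw⟩ : ∃ w, w = 10661 / 10000 - v := ⟨_, rfl⟩
  have hw0 : 0 ≤ w := by rw [hw]; linarith
  have e1 : v ^ 2 ≤ (10661 / 10000) ^ 2 := pow_le_pow_left₀ hv0 hv 2
  have p3 : 0 ≤ v ^ 3 := by positivity
  have p4 : 0 ≤ v ^ 4 := by positivity
  have p5 : v ^ 5 ≤ (10661 / 10000) ^ 2 * v ^ 3 := by
    have : v ^ 5 = v ^ 2 * v ^ 3 := by ring
    rw [this]; gcongr
  have p6 : v ^ 6 ≤ (10661 / 10000) ^ 2 * v ^ 4 := by
    have : v ^ 6 = v ^ 2 * v ^ 4 := by ring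
    rw [this]; gcongr
  -- chords
  have c3 : 3 * (10661 / 10000) ^ 2 * v - 2 * (10661 / 10000) ^ 3 ≤ v ^ 3 := by
    have : 0 ≤ w ^ 2 * (v + 2 * (10661 / 10000)) := by positivity
    rw [hw] at this
    nlinarith
  have c4 : 4 * (10661 / 10000) ^ 3 * v - 3 * (10661 / 10000) ^ 4 ≤ v ^ 4 := by
    have : 0 ≤ w ^ 2 * (v ^ 2 + 2 * (10661 / 10000) * v + 3 * (10661 / 10000) ^ 2) := by positivity
    rw [hw] at this
    nlinarith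
  have k1 : v ^ 2 ≤ (10661 / 10000) * v := by nlinarith
  nlinarith

theorem poly_main {U v : ℝ} (hv0 : 0 ≤ v) (hv : v ≤ 10661 / 10000) (hU : 8 / 25 * v ^ 2 ≤ U)
    (hU1 : U ≤ 379 / 1000) :
    9 / 80 * (U + v ^ 2) ≤ U + U ^ 2 / 3 + (v ^ 2 - v ^ 4 / 3 + 2 / 45 * v ^ 6 - v ^ 8 / 315)
      - 2 * v * ((U + v ^ 2) / 3 + (U ^ 2 - v ^ 4) / 30 + U ^ 3 / 700 + v ^ 6 / 720) := by
  obtain ⟨W, hW⟩ : ∃ W, W = 8 / 25 * v ^ 2 := ⟨_, rfl⟩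
  obtain ⟨δ, hδ⟩ : ∃ δ, δ = U - W := ⟨_, rfl⟩
  rw [← hW] at hU
  have hδ0 : 0 ≤ δ := by rw [hδ]; linarith
  have hW0 : 0 ≤ W := by rw [hW]; positivity
  have hW1 : W ≤ 379 / 1000 := hU.trans hU1
  have hU0 : 0 ≤ U := hW0.trans hU
  have h1 := mul_nonneg (sq_nonneg v) (poly_one hv0 hv)
  have h2 : 0 ≤ δ * (71 / 80 + (U + W) / 3
      - 2 * v * (1 / 3 + (U + W) / 30 + (U ^ 2 + U * W + W ^ 2) / 700)) := by
    apply mul_nonneg hδ0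
    have q1 : U ^ 2 + U * W + W ^ 2 ≤ 44 / 100 := by nlinarith
    have q2 : 0 ≤ U ^ 2 + U * W + W ^ 2 := by positivity
    have q3 : v * (U ^ 2 + U * W + W ^ 2) ≤ 10661 / 10000 * (44 / 100) := by gcongr
    have q4 : v * (U + W) ≤ 10661 / 10000 * (U + W) := by gcongr
    nlinarith
  have e : U + U ^ 2 / 3 + (v ^ 2 - v ^ 4 / 3 + 2 / 45 * v ^ 6 - v ^ 8 / 315)
      - 2 * v * ((U + v ^ 2) / 3 + (U ^ 2 - v ^ 4) / 30 + U ^ 3 / 700 + v ^ 6 / 720)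
      - 9 / 80 * (U + v ^ 2) =
      v ^ 2 * (33 / 25 * (71 / 80) - 187 / 625 * v ^ 2 + 2 / 45 * v ^ 4 - v ^ 6 / 315
      - 2 * v * (11 / 25 - 187 / 6250 * v ^ 2 + (512 / 15625 / 700 + 1 / 720) * v ^ 4)) +
      δ * (71 / 80 + (U + W) / 3
      - 2 * v * (1 / 3 + (U + W) / 30 + (U ^ 2 + U * W + W ^ 2) / 700)) := by
    rw [hδ, hW]
    ring
  linarith

/-- the product of the Taylor polynomials -/
theorem prod_le {U V : ℝ} (hU : 0 ≤ U) (hU1 : U ≤ 379 / 1000) (hV : 0 ≤ V) (hV1 : V ≤ 114 / 100) :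
    (1 + U / 2 + U ^ 2 / 24 + U ^ 3 / 700) * (1 - V / 6 + V ^ 2 / 120)
      - (1 + U / 6 + U ^ 2 / 120) * (1 - V / 2 + V ^ 2 / 24 - V ^ 3 / 720) ≤
    (U + V) / 3 + (U ^ 2 - V ^ 2) / 30 + U ^ 3 / 700 + V ^ 3 / 720 := by
  have e : (U + V) / 3 + (U ^ 2 - V ^ 2) / 30 + U ^ 3 / 700 + V ^ 3 / 720 -
      ((1 + U / 2 + U ^ 2 / 24 + U ^ 3 / 700) * (1 - V / 6 + V ^ 2 / 120)
      - (1 + U / 6 + U ^ 2 / 120) * (1 - V / 2 + V ^ 2 / 24 - V ^ 3 / 720)) =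
      U * V * ((U + V) / 360 + U ^ 2 / 4200 - U ^ 2 * V / 84000 - V ^ 2 / 4320
        - U * V ^ 2 / 86400) := by ring
  have h1 : 0 ≤ U * V := mul_nonneg hU hV
  have h2 : 0 ≤ (U + V) / 360 + U ^ 2 / 4200 - U ^ 2 * V / 84000 - V ^ 2 / 4320
        - U * V ^ 2 / 86400 := by
    have q1 : V ^ 2 ≤ 114 / 100 * V := by nlinarith
    have q2 : U * V ^ 2 ≤ 379 / 1000 * (114 / 100 * V) := by gcongr
    have q3 : U ^ 2 * V ≤ U ^ 2 * (114 / 100) := by gcongr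
    nlinarith [sq_nonneg U]
  have h3 := mul_nonneg h1 h2
  linarith

/-- **the real inequality** -/
theorem F_lower {u v : ℝ} (hu0 : 0 ≤ u) (hu : u ≤ 6155 / 10000) (hv0 : 0 ≤ v)
    (hv : v ≤ 10661 / 10000) (hl : 8 / 25 * v ^ 2 ≤ u ^ 2) :
    2 * (u * (Real.cosh u * Real.sin v) - v * (Real.sinh u * Real.cos v)) ≤
      u * (Real.sinh u ^ 2 + Real.sin v ^ 2 - 9 / 80 * (u ^ 2 + v ^ 2)) := by
  have hU1 : u ^ 2 ≤ 379 / 1000 := by nlinarith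
  have hV1 : v ^ 2 ≤ 114 / 100 := by nlinarith
  have hpm := poly_main hv0 hv hl hU1
  have hpr := prod_le (sq_nonneg u) hU1 (sq_nonneg v) hV1
  have a1 := cosh_le_six hu0 (by linarith)
  have a2 := sin_le_five hv0
  have a3 := sinh_ge_five hu0
  have a4 := cos_ge_six hv0
  have a5 := sin_ge_seven hv0
  have a6 := sinh_ge_three hu0
  have b0 : 0 ≤ Real.sin v := by
    apply Real.sin_nonneg_of_nonneg_of_le_pi hv0
    have := Real.pi_gt_three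
    linarith
  have b1 : 0 ≤ 1 - v ^ 2 / 2 + v ^ 4 / 24 - v ^ 6 / 720 := by
    have h6 : v ^ 6 ≤ (114 / 100) * v ^ 4 := by
      have : v ^ 6 = v ^ 2 * v ^ 4 := by ring
      rw [this]; gcongr
    have h4 : 0 ≤ v ^ 4 := by positivity
    nlinarith
  -- the upper bound of the left side
  have t1 : Real.cosh u * Real.sin v ≤
      (1 + u ^ 2 / 2 + u ^ 4 / 24 + u ^ 6 / 700) * (v - v ^ 3 / 6 + v ^ 5 / 120) := by
    refine mul_le_mul a1 a2 b0 (by positivity)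
  have t2 : (u + u ^ 3 / 6 + u ^ 5 / 120) * (1 - v ^ 2 / 2 + v ^ 4 / 24 - v ^ 6 / 720) ≤
      Real.sinh u * Real.cos v := by
    refine mul_le_mul a3 a4 b1 (Real.sinh_nonneg_iff.2 hu0)
  have t3 : u * (Real.cosh u * Real.sin v) - v * (Real.sinh u * Real.cos v) ≤
      u * v * ((1 + (u ^ 2) / 2 + (u ^ 2) ^ 2 / 24 + (u ^ 2) ^ 3 / 700) *
        (1 - (v ^ 2) / 6 + (v ^ 2) ^ 2 / 120)
      - (1 + (u ^ 2) / 6 + (u ^ 2) ^ 2 / 120) *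
        (1 - (v ^ 2) / 2 + (v ^ 2) ^ 2 / 24 - (v ^ 2) ^ 3 / 720)) := by
    have s1 := mul_le_mul_of_nonneg_left t1 hu0
    have s2 := mul_le_mul_of_nonneg_left t2 hv0
    have e : u * v * ((1 + (u ^ 2) / 2 + (u ^ 2) ^ 2 / 24 + (u ^ 2) ^ 3 / 700) *
        (1 - (v ^ 2) / 6 + (v ^ 2) ^ 2 / 120)
      - (1 + (u ^ 2) / 6 + (u ^ 2) ^ 2 / 120) *
        (1 - (v ^ 2) / 2 + (v ^ 2) ^ 2 / 24 - (v ^ 2) ^ 3 / 720)) =
      u * ((1 + u ^ 2 / 2 + u ^ 4 / 24 + u ^ 6 / 700) * (v - v ^ 3 / 6 + v ^ 5 / 120)) -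
      v * ((u + u ^ 3 / 6 + u ^ 5 / 120) * (1 - v ^ 2 / 2 + v ^ 4 / 24 - v ^ 6 / 720)) := by ring
    rw [e]
    linarith
  have t4 := mul_le_mul_of_nonneg_left hpr (mul_nonneg hu0 hv0)
  -- the lower bound of the squares
  have r1 : u ^ 2 + (u ^ 2) ^ 2 / 3 ≤ Real.sinh u ^ 2 := by
    have h1 : (u + u ^ 3 / 6) ^ 2 ≤ Real.sinh u ^ 2 := pow_le_pow_left₀ (by positivity) a6 2
    have h2 : 0 ≤ (u ^ 3 / 6) ^ 2 := sq_nonneg _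
    nlinarith
  have r2 : v ^ 2 - v ^ 4 / 3 + 2 / 45 * v ^ 6 - v ^ 8 / 315 ≤ Real.sin v ^ 2 := by
    have e0 : v - v ^ 3 / 6 + v ^ 5 / 120 - v ^ 7 / 5040 =
        v * (1 - v ^ 2 / 6 + v ^ 4 / 120 - v ^ 6 / 5040) := by ring
    have h6 : v ^ 6 ≤ (114 / 100) * v ^ 4 := by
      have : v ^ 6 = v ^ 2 * v ^ 4 := by ring
      rw [this]; gcongr
    have h4 : 0 ≤ v ^ 4 := by positivity
    have h0 : 0 ≤ v - v ^ 3 / 6 + v ^ 5 / 120 - v ^ 7 / 5040 := by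
      rw [e0]
      apply mul_nonneg hv0
      nlinarith
    have h1 : (v - v ^ 3 / 6 + v ^ 5 / 120 - v ^ 7 / 5040) ^ 2 ≤ Real.sin v ^ 2 :=
      pow_le_pow_left₀ h0 a5 2
    have e1 : (v - v ^ 3 / 6 + v ^ 5 / 120 - v ^ 7 / 5040) ^ 2 -
        (v ^ 2 - v ^ 4 / 3 + 2 / 45 * v ^ 6 - v ^ 8 / 315) =
        v ^ 10 * (41 / 302400 - v ^ 2 / 302400 + v ^ 4 / 25401600) := by ring
    have h5 : 0 ≤ v ^ 10 * (41 / 302400 - v ^ 2 / 302400 + v ^ 4 / 25401600) := by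
      apply mul_nonneg (by positivity)
      nlinarith
    linarith
  have fin := mul_le_mul_of_nonneg_left hpm hu0
  have r3 := mul_le_mul_of_nonneg_left r1 hu0
  have r4 := mul_le_mul_of_nonneg_left r2 hu0
  have e5 : (v ^ 2) ^ 3 = v ^ 6 := by ring
  have e6 : (v ^ 2) ^ 2 = v ^ 4 := by ring
  rw [e5, e6] at t4
  have e7 : (u ^ 2) ^ 3 / 700 = (u ^ 2) ^ 3 / 700 := rfl
  nlinarith
end Pool.Agent.Helper30.LZ
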