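import Pool.Agent.Helper27.LZ.R
import Pool.Agent.Helper30.LZ.Poly

/-!
# Lorenz links: the inequality (R) for `‖t‖ ^ (r + 1) ≥ 0.292`
-/

set_option autoImplicit false

namespace Pool.Agent.Helper30.LZ

open Pool.Agent.Helper27.LZ

theorem sinh_le_mul_cosh {x : ℝ} (hx : 0 ≤ x) : Real.sinh x ≤ x * Real.cosh x := by
  have h := mono_aux (f := fun y => y * Real.cosh y - Real.sinh y)
    (f' := fun y => y * Real.sinh y) (fun y => by
      have h1 := ((hasDerivAt_id y).mul (Real.hasDerivAt_cosh y)).sub (Real.hasDerivAt_sinh y)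
      refine h1.congr_deriv ?_
      simp) (fun y hy => mul_nonneg hy (Real.sinh_nonneg_iff.2 hy)) hx
  norm_num at h
  linarith

theorem mul_cos_le_sin {y : ℝ} (hy : 0 ≤ y) (hy1 : y < Real.pi / 2) :
    y * Real.cos y ≤ Real.sin y := by
  have h := Real.le_tan hy hy1
  have hc : 0 < Real.cos y := Real.cos_pos_of_mem_Ioo ⟨by linarith, hy1⟩
  rw [Real.tan_eq_sin_div_cos, le_div_iff₀ hc] at h
  exact h

theorem D_im_nonneg {a b : ℝ} (ha : 0 ≤ a) (hb : 0 ≤ b)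
    (h : Complex.sinh ((a : ℂ) + b * Complex.I) ≠ 0) (k : ℕ) (hk : (k : ℝ) * b ≤ Real.pi) :
    0 ≤ (D ((a : ℂ) + b * Complex.I) k).im := by
  induction k using Nat.strong_induction_on with
  | _ k ih =>
    match k with
    | 0 => simp [D_zero]
    | 1 => simp [D_one h]
    | k + 2 =>
      have h1 := ih k (by omega) (by
        refine le_trans ?_ hk
        push_cast
        nlinarith)
      rw [D_step h, Complex.add_im]
      have e : (2 * Complex.cosh (((k + 1 : ℕ) : ℂ) * ((a : ℂ) + b * Complex.I))).im =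
          2 * (Real.sinh ((k + 1 : ℕ) * a) * Real.sin ((k + 1 : ℕ) * b)) := by
        rw [nat_mul_zeta]
        have := (cosh_re_im ((k + 1 : ℕ) * a) ((k + 1 : ℕ) * b)).2
        rw [Complex.mul_im, this]
        simp
      rw [e]
      have h2 : 0 ≤ Real.sinh ((k + 1 : ℕ) * a) := Real.sinh_nonneg_iff.2 (by positivity)
      have h3 : 0 ≤ Real.sin ((k + 1 : ℕ) * b) := by
        apply Real.sin_nonneg_of_nonneg_of_le_pi (by positivity)
        refine le_trans ?_ hk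
        push_cast
        nlinarith
      have := mul_nonneg h2 h3
      linarith

theorem D_im_closed {a b : ℝ} (h : Complex.sinh ((a : ℂ) + b * Complex.I) ≠ 0) (k : ℕ) :
    (D ((a : ℂ) + b * Complex.I) k).im * (Real.sinh a ^ 2 + Real.sin b ^ 2) =
      Real.cosh (k * a) * Real.sin (k * b) * (Real.sinh a * Real.cos b) -
        Real.sinh (k * a) * Real.cos (k * b) * (Real.cosh a * Real.sin b) := by
  have hS := norm_sinh_sq a b
  rw [← hS, Complex.sq_norm]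
  have hn : Complex.normSq (Complex.sinh ((a : ℂ) + b * Complex.I)) ≠ 0 := by
    rwa [Ne, Complex.normSq_eq_zero]
  unfold D
  rw [Complex.div_im, nat_mul_zeta, (sinh_re_im (k * a) (k * b)).1, (sinh_re_im (k * a) (k * b)).2,
    (sinh_re_im a b).1, (sinh_re_im a b).2]
  rw [sub_mul, div_mul_cancel₀ _ hn, div_mul_cancel₀ _ hn]

theorem D_norm_closed {a b : ℝ} (h : Complex.sinh ((a : ℂ) + b * Complex.I) ≠ 0) (k : ℕ) :
    ‖D ((a : ℂ) + b * Complex.I) k‖ ^ 2 * (Real.sinh a ^ 2 + Real.sin b ^ 2) =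
      Real.sinh (k * a) ^ 2 + Real.sin (k * b) ^ 2 := by
  rw [← norm_sinh_sq a b, ← norm_sinh_sq (k * a) (k * b), ← nat_mul_zeta, ← mul_pow, ← norm_mul]
  unfold D
  rw [div_mul_cancel₀ _ h]

/-- the size of the angle -/
theorem b_bounds {a b : ℝ} (ha : 0 < a) (hb : 0 ≤ b) (hb1 : b ≤ Real.pi / 2)
    (hsin : Real.sin b ^ 2 ≤ 3 * Real.sinh a ^ 2) (ha1 : a ≤ 1539 / 10000) :
    b ^ 2 ≤ 3 * a ^ 2 * (1 + 3 / 2 * a ^ 2) := by
  have h1 := sinh_le_three ha.le (by linarith)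
  have h2 : Real.sinh a ^ 2 ≤ (a + a ^ 3 / 5) ^ 2 :=
    pow_le_pow_left₀ (Real.sinh_nonneg_iff.2 ha.le) h1 2
  have h3 := Real.sin_ge_sub_cube hb
  have hpi : Real.pi < 3.15 := Real.pi_lt_d2
  have hb2 : b ≤ 1575 / 1000 := by linarith
  have hb3 : b ^ 2 ≤ 249 / 100 := by nlinarith
  have e0 : b - b ^ 3 / 6 = b * (1 - b ^ 2 / 6) := by ring
  have h4 : (b * (1 - b ^ 2 / 6)) ^ 2 ≤ Real.sin b ^ 2 := by
    apply pow_le_pow_left₀
    · apply mul_nonneg hb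
      linarith
    · rw [← e0]
      exact h3
  obtain ⟨q, hq⟩ : ∃ q, q = b ^ 2 := ⟨_, rfl⟩
  obtain ⟨A, hA⟩ : ∃ A, A = a ^ 2 := ⟨_, rfl⟩
  have hA0 : 0 < A := by rw [hA]; positivity
  have hA1 : A ≤ 237 / 10000 := by rw [hA]; nlinarith
  have hq0 : 0 ≤ q := by rw [hq]; positivity
  have e1 : (b * (1 - b ^ 2 / 6)) ^ 2 = q * (1 - q / 6) ^ 2 := by rw [hq]; ring
  have e2 : (a + a ^ 3 / 5) ^ 2 = A * (1 + A / 5) ^ 2 := by rw [hA]; ring
  rw [e1] at h4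
  rw [e2] at h2
  rw [← hq] at hb3
  have key : q * (1 - q / 6) ^ 2 ≤ 3 * A * (1 + A / 5) ^ 2 := by linarith
  have k0 : (1 + A / 5) ^ 2 ≤ 1 + 41 / 100 * A := by nlinarith
  have k1 : 3 * A * (1 + A / 5) ^ 2 ≤ 3 * A * (1 + 41 / 100 * A) := by gcongr
  have key2 : q * (1 - q / 6) ^ 2 ≤ 3 * A * (1 + 41 / 100 * A) := key.trans k1
  have key3 : q * (1 - q / 6) ^ 2 ≤ 303 / 100 * A := by nlinarith
  -- first round
  have r1 : q ≤ 10 * A := by
    have : (58 / 100 : ℝ) ^ 2 ≤ (1 - q / 6) ^ 2 := by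
      apply pow_le_pow_left₀ (by norm_num)
      linarith
    have h5 : q * (58 / 100) ^ 2 ≤ q * (1 - q / 6) ^ 2 := by gcongr
    nlinarith
  have r2 : q ≤ 33 / 10 * A := by
    have : (96 / 100 : ℝ) ^ 2 ≤ (1 - q / 6) ^ 2 := by
      apply pow_le_pow_left₀ (by norm_num)
      linarith
    have h5 : q * (96 / 100) ^ 2 ≤ q * (1 - q / 6) ^ 2 := by gcongr
    nlinarith
  have r3 : q ≤ 311 / 100 * A := by
    have : (9869 / 10000 : ℝ) ^ 2 ≤ (1 - q / 6) ^ 2 := by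
      apply pow_le_pow_left₀ (by norm_num)
      linarith
    have h5 : q * (9869 / 10000) ^ 2 ≤ q * (1 - q / 6) ^ 2 := by gcongr
    nlinarith [key2]
  -- last round
  have hq6 : 1 - 519 / 1000 * A ≤ 1 - q / 6 := by linarith
  have h6 : (1 - 519 / 1000 * A) ^ 2 ≤ (1 - q / 6) ^ 2 := by
    apply pow_le_pow_left₀ _ hq6
    linarith
  have h7 : q * (1 - 519 / 1000 * A) ^ 2 ≤ 3 * A * (1 + 41 / 100 * A) :=
    (mul_le_mul_of_nonneg_left h6 hq0).trans key2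
  have h8 : 3 * A * (1 + 41 / 100 * A) ≤ 3 * A * (1 + 3 / 2 * A) * (1 - 519 / 1000 * A) ^ 2 := by
    have h9 : 1 + 41 / 100 * A ≤ (1 + 3 / 2 * A) * (1 - 519 / 1000 * A) ^ 2 := by nlinarith
    have := mul_le_mul_of_nonneg_left h9 (by positivity : 0 ≤ 3 * A)
    linarith
  have h10 : 0 < (1 - 519 / 1000 * A) ^ 2 := by
    apply pow_pos
    linarith
  have h11 : q * (1 - 519 / 1000 * A) ^ 2 ≤ 3 * A * (1 + 3 / 2 * A) * (1 - 519 / 1000 * A) ^ 2 :=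
    h7.trans h8
  have h12 := le_of_mul_le_mul_right h11 h10
  rw [hq, hA] at h12
  exact h12

/-- the inequality between the imaginary part and the modulus of `D`, `r ≥ 3` -/
theorem D_ineq3 {a b : ℝ} {r : ℕ} (hr : 3 ≤ r) (ha : 0 < a) (hb : 0 ≤ b) (hb1 : b ≤ Real.pi / 2)
    (hz : Complex.sinh ((a : ℂ) + b * Complex.I) ≠ 0)
    (hsin : Real.sin b ^ 2 ≤ 3 * Real.sinh a ^ 2) (har : ((r : ℝ) + 1) * a ≤ 6156 / 10000) :
    2 * |(D ((a : ℂ) + b * Complex.I) r).im| ≤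
      Real.sinh a * (‖D ((a : ℂ) + b * Complex.I) r‖ ^ 2 - 1) := by
  have hr3 : (3 : ℝ) ≤ r := by exact_mod_cast hr
  have ha1 : a ≤ 1539 / 10000 := by nlinarith
  have hbb := b_bounds ha hb hb1 hsin ha1
  obtain ⟨u, hu⟩ : ∃ u, u = (r : ℝ) * a := ⟨_, rfl⟩
  obtain ⟨v, hv⟩ : ∃ v, v = (r : ℝ) * b := ⟨_, rfl⟩
  have hu0 : 0 < u := by rw [hu]; positivity
  have hv0 : 0 ≤ v := by rw [hv]; positivity
  have hua : u ≤ 6156 / 10000 - a := by rw [hu]; linarith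
  have hu1 : u ≤ 6156 / 10000 := by linarith
  have hv2 : v ^ 2 ≤ (10663 / 10000) ^ 2 := by
    have h1 : v ^ 2 ≤ 3 * u ^ 2 * (1 + 3 / 2 * a ^ 2) := by
      have := mul_le_mul_of_nonneg_left hbb (sq_nonneg (r : ℝ))
      have e1 : v ^ 2 = (r : ℝ) ^ 2 * b ^ 2 := by rw [hv]; ring
      have e2 : 3 * u ^ 2 * (1 + 3 / 2 * a ^ 2) =
          (r : ℝ) ^ 2 * (3 * a ^ 2 * (1 + 3 / 2 * a ^ 2)) := by rw [hu]; ring
      rw [e1, e2]
      exact this
    have h2 : u ^ 2 ≤ (6156 / 10000 - a) ^ 2 := pow_le_pow_left₀ hu0.le hua 2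
    have h3 : 3 * u ^ 2 * (1 + 3 / 2 * a ^ 2) ≤
        3 * (6156 / 10000 - a) ^ 2 * (1 + 3 / 2 * a ^ 2) := by gcongr
    have h4 : (6156 / 10000 - a) ^ 2 * (1 + 3 / 2 * a ^ 2) ≤ (6156 / 10000) ^ 2 := by
      nlinarith [mul_pos ha ha, mul_pos (mul_pos ha ha) ha]
    nlinarith
  have hv1 : v ≤ 10663 / 10000 := by
    by_contra h1
    push Not at h1
    nlinarith
  have hA2 : a ^ 2 ≤ 237 / 10000 := by nlinarith
  have hb2 : b ^ 2 ≤ 25 / 8 * a ^ 2 := by nlinarith [sq_nonneg a]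
  have hl : 8 / 25 * v ^ 2 ≤ u ^ 2 := by
    have := mul_le_mul_of_nonneg_left hb2 (sq_nonneg (r : ℝ))
    have e1 : v ^ 2 = (r : ℝ) ^ 2 * b ^ 2 := by rw [hv]; ring
    have e2 : u ^ 2 = (r : ℝ) ^ 2 * a ^ 2 := by rw [hu]; ring
    rw [e1, e2]
    linarith
  have hF := F_lower hu0.le hu1 hv0 hv1 hl
  have hpi := Real.pi_gt_three
  have hvpi : v < Real.pi / 2 := by linarith
  have hbv : b ≤ v := by rw [hv]; nlinarith
  have hbpi : b < Real.pi / 2 := by linarith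
  -- abbreviations
  obtain ⟨s, hs⟩ : ∃ s, s = Real.sinh a := ⟨_, rfl⟩
  obtain ⟨c, hc⟩ : ∃ c, c = Real.cosh a := ⟨_, rfl⟩
  have hs0 : 0 < s := by rw [hs]; exact Real.sinh_pos_iff.2 ha
  have hc0 : 0 < c := by rw [hc]; exact Real.cosh_pos a
  have him0 := D_im_nonneg ha.le hb hz r (by rw [← hv]; linarith)
  have him := D_im_closed hz r
  have hnm := D_norm_closed hz r
  rw [← hu, ← hv, ← hs, ← hc] at him
  rw [← hu, ← hv, ← hs] at hnm
  rw [abs_of_nonneg him0, ← hs]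
  obtain ⟨I, hI⟩ : ∃ I, I = (D ((a : ℂ) + b * Complex.I) r).im := ⟨_, rfl⟩
  obtain ⟨Q, hQ⟩ : ∃ Q, Q = ‖D ((a : ℂ) + b * Complex.I) r‖ ^ 2 := ⟨_, rfl⟩
  rw [← hI] at him him0 ⊢
  rw [← hQ] at hnm ⊢
  obtain ⟨S, hS⟩ : ∃ S, S = s ^ 2 + Real.sin b ^ 2 := ⟨_, rfl⟩
  have hS0 : 0 < S := by rw [hS]; positivity
  rw [← hS] at him hnm
  -- the auxiliary function
  obtain ⟨G, hG⟩ : ∃ G, G = u * (Real.cosh u * Real.sin v) - v * (Real.sinh u * Real.cos v) :=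
    ⟨_, rfl⟩
  rw [← hG] at hF
  have hcv : 0 ≤ Real.cos v := Real.cos_nonneg_of_neg_pi_div_two_le_of_le (by linarith) hvpi.le
  have hcb : 0 ≤ Real.cos b := Real.cos_nonneg_of_neg_pi_div_two_le_of_le (by linarith) hb1
  have hcb1 : Real.cos b ≤ 1 := Real.cos_le_one b
  have hshu : 0 ≤ Real.sinh u := Real.sinh_nonneg_iff.2 hu0.le
  have hG0 : 0 ≤ G := by
    have h1 := sinh_le_mul_cosh hu0.le
    have h2 := mul_cos_le_sin hv0 hvpi
    have h3 : Real.sinh u * (v * Real.cos v) ≤ (u * Real.cosh u) * Real.sin v :=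
      mul_le_mul h1 h2 (mul_nonneg hv0 hcv) (by
        have := (Real.cosh_pos u).le
        positivity)
    rw [hG]
    linarith
  have hIG : u * (I * S) ≤ Real.cos b * (s * G) := by
    have h1 := sinh_le_mul_cosh ha.le
    rw [← hs, ← hc] at h1
    have h2 := mul_cos_le_sin hb hbpi
    have h3 : s * (b * Real.cos b) ≤ (a * c) * Real.sin b :=
      mul_le_mul h1 h2 (mul_nonneg hb hcb) (by positivity)
    have h4 : v * (s * Real.cos b) ≤ u * (c * Real.sin b) := by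
      have := mul_le_mul_of_nonneg_left h3 (by positivity : (0 : ℝ) ≤ r)
      have e1 : v * (s * Real.cos b) = r * (s * (b * Real.cos b)) := by rw [hv]; ring
      have e2 : u * (c * Real.sin b) = r * (a * c * Real.sin b) := by rw [hu]; ring
      rw [e1, e2]
      exact this
    have h5 := mul_le_mul_of_nonneg_left h4 (mul_nonneg hshu hcv)
    rw [him, hG]
    nlinarith
  have hIG2 : u * (I * S) ≤ s * G := by
    have : Real.cos b * (s * G) ≤ 1 * (s * G) := by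
      apply mul_le_mul_of_nonneg_right hcb1
      positivity
    linarith
  have hSb : S ≤ 9 / 80 * (u ^ 2 + v ^ 2) := by
    have h1 := sinh_le_three ha.le (by linarith)
    rw [← hs] at h1
    have h2 : s ^ 2 ≤ (a + a ^ 3 / 5) ^ 2 := pow_le_pow_left₀ hs0.le h1 2
    have h3 : Real.sin b ^ 2 ≤ b ^ 2 := Real.sin_sq_le_sq
    have h4 : (a + a ^ 3 / 5) ^ 2 ≤ 81 / 80 * a ^ 2 := by
      have e1 : (a + a ^ 3 / 5) ^ 2 = a ^ 2 * (1 + a ^ 2 / 5) ^ 2 := by ring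
      rw [e1, mul_comm (81 / 80 : ℝ)]
      apply mul_le_mul_of_nonneg_left _ (sq_nonneg a)
      nlinarith
    have h5 : 9 * (a ^ 2 + b ^ 2) ≤ u ^ 2 + v ^ 2 := by
      have e1 : u ^ 2 + v ^ 2 = (r : ℝ) ^ 2 * (a ^ 2 + b ^ 2) := by rw [hu, hv]; ring
      rw [e1]
      apply mul_le_mul_of_nonneg_right _ (by positivity)
      nlinarith
    rw [hS]
    have h6 : 0 ≤ b ^ 2 := sq_nonneg b
    linarith
  -- conclusion
  have f1 : u * (2 * (I * S)) ≤ u * (s * (Q * S - S)) := by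
    rw [hnm]
    have h1 := mul_le_mul_of_nonneg_left hF hs0.le
    have h2 := mul_le_mul_of_nonneg_left hSb (mul_nonneg hu0.le hs0.le)
    nlinarith
  have f2 := le_of_mul_le_mul_left f1 hu0
  have f3 : (2 * I) * S ≤ (s * (Q - 1)) * S := by linarith
  exact le_of_mul_le_mul_right f3 hS0

/-- the same for `r = 2` -/
theorem D_ineq2 {a b : ℝ} (ha : 0 < a)
    (hz : Complex.sinh ((a : ℂ) + b * Complex.I) ≠ 0)
    (hsin : Real.sin b ^ 2 ≤ 3 * Real.sinh a ^ 2) (har : 3 * a ≤ 6156 / 10000) :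
    2 * |(D ((a : ℂ) + b * Complex.I) 2).im| ≤
      Real.sinh a * (‖D ((a : ℂ) + b * Complex.I) 2‖ ^ 2 - 1) := by
  have ha1 : a ≤ 2052 / 10000 := by linarith
  have e : D ((a : ℂ) + b * Complex.I) 2 = 2 * Complex.cosh ((a : ℂ) + b * Complex.I) := by
    have h1 := D_step hz 0
    rw [D_zero, zero_add, zero_add, zero_add, Nat.cast_one, one_mul] at h1
    exact h1
  obtain ⟨c1, c2⟩ := cosh_re_im a b
  have him : (D ((a : ℂ) + b * Complex.I) 2).im = 2 * (Real.sinh a * Real.sin b) := by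
    rw [e, Complex.mul_im, c2]
    simp
  have hre : (D ((a : ℂ) + b * Complex.I) 2).re = 2 * (Real.cosh a * Real.cos b) := by
    rw [e, Complex.mul_re, c1]
    simp
  rw [Complex.sq_norm, Complex.normSq_apply, him, hre]
  obtain ⟨s, hs⟩ : ∃ s, s = Real.sinh a := ⟨_, rfl⟩
  obtain ⟨c, hc⟩ : ∃ c, c = Real.cosh a := ⟨_, rfl⟩
  obtain ⟨σ, hσ⟩ : ∃ σ, σ = Real.sin b := ⟨_, rfl⟩
  obtain ⟨γ, hγ⟩ : ∃ γ, γ = Real.cos b := ⟨_, rfl⟩
  have hs0 : 0 < s := by rw [hs]; exact Real.sinh_pos_iff.2 ha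
  have h1 := sinh_le_three ha.le (by linarith)
  have hcs : c ^ 2 = s ^ 2 + 1 := by rw [hc, hs]; exact Real.cosh_sq a
  have hgs : γ ^ 2 = 1 - σ ^ 2 := by
    rw [hγ, hσ]
    linarith [Real.sin_sq_add_cos_sq b]
  rw [← hs] at h1 hsin ⊢
  rw [← hσ] at hsin ⊢
  rw [← hc, ← hγ]
  have hs1 : s ≤ 208 / 1000 := by
    have h2 : a ^ 3 ≤ (2052 / 10000) ^ 3 := pow_le_pow_left₀ ha.le ha1 3
    nlinarith
  have hs2 : s ^ 2 ≤ 44 / 1000 := by nlinarith
  have hσ2 : σ ^ 2 ≤ 132 / 1000 := by linarith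
  have hσ1 : |σ| ≤ 4 / 10 := by
    apply abs_le_of_sq_le_sq _ (by norm_num)
    linarith
  have hσ0 := abs_nonneg σ
  rw [abs_mul, abs_two, abs_mul, abs_of_pos hs0]
  have e2 : 2 * (c * γ) * (2 * (c * γ)) + 2 * (s * σ) * (2 * (s * σ)) - 1 =
      3 + 4 * s ^ 2 - 4 * σ ^ 2 := by
    have e3 : 2 * (c * γ) * (2 * (c * γ)) + 2 * (s * σ) * (2 * (s * σ)) - 1 =
        4 * (c ^ 2 * γ ^ 2) + 4 * s ^ 2 * σ ^ 2 - 1 := by ring
    rw [e3, hcs, hgs]
    ring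
  rw [e2]
  have h3 : 4 * |σ| ≤ 3 + 4 * s ^ 2 - 4 * σ ^ 2 := by nlinarith [sq_nonneg s]
  have := mul_le_mul_of_nonneg_left h3 hs0.le
  linarith

/-- (R) in terms of hyperbolic sines -/
theorem sinh_ineq' {a b : ℝ} {r : ℕ} (ha : 0 < a)
    (hz : Complex.sinh ((a : ℂ) + b * Complex.I) ≠ 0) (hr : 2 ≤ r)
    (h1 : 2 * |(D ((a : ℂ) + b * Complex.I) r).im| ≤
      Real.sinh a * (‖D ((a : ℂ) + b * Complex.I) r‖ ^ 2 - 1)) :
    ‖Complex.sinh ((r - 1 : ℕ) * ((a : ℂ) + b * Complex.I))‖ *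
        ‖Complex.sinh ((r + 1 : ℕ) * ((a : ℂ) + b * Complex.I))‖ +
      Real.cosh a * ‖Complex.sinh ((a : ℂ) + b * Complex.I)‖ ^ 2 ≤
      Real.cosh a * ‖Complex.sinh (r * ((a : ℂ) + b * Complex.I))‖ ^ 2 := by
  obtain ⟨ζ, hζ⟩ : ∃ ζ, ζ = ((a : ℂ) + b * Complex.I) := ⟨_, rfl⟩
  rw [← hζ] at h1 hz ⊢
  have e1 : Complex.sinh (r * ζ) = D ζ r * Complex.sinh ζ := by
    unfold D
    rw [div_mul_cancel₀ _ hz]
  have e2 : Complex.sinh ((r - 1 : ℕ) * ζ) * Complex.sinh ((r + 1 : ℕ) * ζ) =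
      (D ζ r ^ 2 - 1) * Complex.sinh ζ ^ 2 := by
    have e3 : ((r - 1 : ℕ) : ℂ) * ζ = r * ζ - ζ := by
      rw [Nat.cast_sub (by omega)]
      push_cast
      ring
    have e4 : ((r + 1 : ℕ) : ℂ) * ζ = r * ζ + ζ := by push_cast; ring
    have e8 : (D ζ r ^ 2 - 1) * Complex.sinh ζ ^ 2 =
        Complex.sinh (r * ζ) ^ 2 - Complex.sinh ζ ^ 2 := by
      rw [e1]
      ring
    rw [e3, e4, Complex.sinh_add, Complex.sinh_sub, e8]
    have e5 := Complex.cosh_sq (r * ζ)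
    have e6 := Complex.cosh_sq ζ
    have e7 : (Complex.sinh (r * ζ) * Complex.cosh ζ - Complex.cosh (r * ζ) * Complex.sinh ζ) *
        (Complex.sinh (r * ζ) * Complex.cosh ζ + Complex.cosh (r * ζ) * Complex.sinh ζ) =
        Complex.sinh (r * ζ) ^ 2 * Complex.cosh ζ ^ 2 -
          Complex.cosh (r * ζ) ^ 2 * Complex.sinh ζ ^ 2 := by ring
    rw [e7, e5, e6]
    ring
  rw [← norm_mul, e2, e1, norm_mul, norm_mul, norm_pow, mul_pow]
  have hs : 0 < Real.sinh a := Real.sinh_pos_iff.2 ha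
  have hc : 0 < Real.cosh a := Real.cosh_pos a
  have hm : 0 ≤ ‖D ζ r‖ ^ 2 - 1 := by
    by_contra h2
    push Not at h2
    have h3 : Real.sinh a * (‖D ζ r‖ ^ 2 - 1) < 0 := mul_neg_of_pos_of_neg hs h2
    have := abs_nonneg (D ζ r).im
    linarith
  have h2 : ‖D ζ r ^ 2 - 1‖ ≤ Real.cosh a * (‖D ζ r‖ ^ 2 - 1) := by
    apply le_of_sq_le_sq _ (by positivity)
    rw [norm_sq_sub_one, mul_pow, Real.cosh_sq a]
    have h3 : (2 * |(D ζ r).im|) ^ 2 ≤ (Real.sinh a * (‖D ζ r‖ ^ 2 - 1)) ^ 2 :=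
      pow_le_pow_left₀ (by positivity) h1 2
    rw [mul_pow, sq_abs, mul_pow] at h3
    nlinarith
  have h3 : 0 ≤ ‖Complex.sinh ζ‖ ^ 2 := sq_nonneg _
  nlinarith [mul_le_mul_of_nonneg_right h2 h3]

/-- (R) for `t = exp (-2 (a + i b))`, `b ≥ 0` -/
theorem Rab {t : ℂ} {a b : ℝ} {r : ℕ} (hr2 : 2 ≤ r) (ha : 0 < a) (hb : 0 ≤ b)
    (hb1 : b ≤ Real.pi / 2) (ht : t = Complex.exp (-2 * ((a : ℂ) + b * Complex.I)))
    (hn : ‖t‖ = Real.exp (-(2 * a)))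
    (hz : Complex.sinh ((a : ℂ) + b * Complex.I) ≠ 0)
    (hsin : Real.sin b ^ 2 ≤ 3 * Real.sinh a ^ 2) (har : ((r : ℝ) + 1) * a ≤ 6156 / 10000) :
    2 * √‖t‖ * (‖1 - t ^ (r - 1)‖ * ‖1 - t ^ (r + 1)‖) +
      ‖t‖ ^ (r - 1) * (1 + ‖t‖) * ‖1 - t‖ ^ 2 ≤ (1 + ‖t‖) * ‖1 - t ^ r‖ ^ 2 := by
  have hD : 2 * |(D ((a : ℂ) + b * Complex.I) r).im| ≤
      Real.sinh a * (‖D ((a : ℂ) + b * Complex.I) r‖ ^ 2 - 1) := by
    rcases Nat.lt_or_ge r 3 with h3 | h3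
    · obtain rfl : r = 2 := by omega
      apply D_ineq2 ha hz hsin
      push_cast at har
      linarith
    · exact D_ineq3 h3 ha hb hb1 hz hsin har
  have hR := sinh_ineq' ha hz hr2 hD
  have c0 := norm_one_sub_pow ht (r - 1)
  have c1 := norm_one_sub_pow ht r
  have c2 := norm_one_sub_pow ht (r + 1)
  have c3 := norm_one_sub_pow ht 1
  rw [pow_one, Nat.cast_one, Nat.cast_one, one_mul, one_mul] at c3
  rw [c0, c1, c2, c3, hn]
  obtain ⟨X, hX⟩ : ∃ X, X = ‖Complex.sinh ((r - 1 : ℕ) * ((a : ℂ) + b * Complex.I))‖ := ⟨_, rfl⟩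
  obtain ⟨Y, hY⟩ : ∃ Y, Y = ‖Complex.sinh ((r + 1 : ℕ) * ((a : ℂ) + b * Complex.I))‖ := ⟨_, rfl⟩
  obtain ⟨Z, hZ⟩ : ∃ Z, Z = ‖Complex.sinh (r * ((a : ℂ) + b * Complex.I))‖ := ⟨_, rfl⟩
  obtain ⟨W, hW⟩ : ∃ W, W = ‖Complex.sinh ((a : ℂ) + b * Complex.I)‖ := ⟨_, rfl⟩
  rw [← hX, ← hY, ← hZ, ← hW] at hR
  rw [← hX, ← hY, ← hZ, ← hW]
  obtain ⟨q, hq⟩ : ∃ q, q = Real.exp (-a) := ⟨_, rfl⟩
  have hq0 : 0 < q := by rw [hq]; exact Real.exp_pos _
  have e1 : Real.exp (-(2 * a)) = q ^ 2 := by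
    rw [hq, ← Real.exp_nat_mul]; congr 1; push_cast; ring
  have e2 : ∀ k : ℕ, Real.exp (-(k * a)) = q ^ k := by
    intro k
    rw [hq, ← Real.exp_nat_mul]
    congr 1
    ring
  have e3 : 2 * q * Real.cosh a = 1 + q ^ 2 := by
    rw [Real.cosh_eq]
    have e4 : q * Real.exp a = 1 := by rw [hq, ← Real.exp_add, neg_add_cancel, Real.exp_zero]
    rw [← hq]
    linear_combination e4
  rw [e1, e2, e2, e2, ← hq, Real.sqrt_sq hq0.le]
  obtain ⟨m, rfl⟩ : ∃ m, r = m + 1 := ⟨r - 1, by omega⟩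
  rw [Nat.add_sub_cancel]
  have e5 : 2 * q * (2 * q ^ m * X * (2 * q ^ (m + 1 + 1) * Y)) +
      (q ^ 2) ^ m * (1 + q ^ 2) * (2 * q * W) ^ 2 =
      8 * q * q ^ (2 * m + 2) * (X * Y + Real.cosh a * W ^ 2) := by
    rw [← e3]
    ring
  have e6 : (1 + q ^ 2) * (2 * q ^ (m + 1) * Z) ^ 2 =
      8 * q * q ^ (2 * m + 2) * (Real.cosh a * Z ^ 2) := by
    rw [← e3]
    ring
  rw [e5, e6]
  gcongr

/-- the threshold -/
theorem a_bound {a : ℝ} {r : ℕ} (hh : 292 / 1000 ≤ Real.exp (-(2 * a)) ^ (r + 1)) :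
    ((r : ℝ) + 1) * a ≤ 6156 / 10000 := by
  by_contra h
  push Not at h
  have e1 : Real.exp (-(2 * a)) ^ (r + 1) = (Real.exp (2 * (((r : ℝ) + 1) * a)))⁻¹ := by
    rw [← Real.exp_nat_mul, ← Real.exp_neg]
    congr 1
    push_cast
    ring
  rw [e1] at hh
  have h1 : Real.exp (12312 / 10000) ≤ Real.exp (2 * (((r : ℝ) + 1) * a)) := by
    apply Real.exp_le_exp.2
    linarith
  have h2 : (3425 / 1000 : ℝ) ≤ Real.exp (12312 / 10000) := by
    refine le_trans ?_ (Real.sum_le_exp_of_nonneg (by norm_num) 10)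
    simp only [Finset.sum_range_succ, Finset.sum_range_zero, Nat.factorial]
    norm_num
  have h3 : (3425 / 1000 : ℝ) ≤ Real.exp (2 * (((r : ℝ) + 1) * a)) := h2.trans h1
  have h4 : (Real.exp (2 * (((r : ℝ) + 1) * a)))⁻¹ ≤ (3425 / 1000 : ℝ)⁻¹ :=
    inv_anti₀ (by norm_num) h3
  have h5 : (3425 / 1000 : ℝ)⁻¹ < 292 / 1000 := by norm_num
  linarith

/-- **(R) in the larger range** -/
theorem Rp {t : ℂ} (h0 : t ≠ 0) (h1 : ‖t‖ < 1) (hk : ‖1 - t‖ ≤ 2 * (1 - ‖t‖)) {r : ℕ} (hr : 1 ≤ r)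
    (hh : 292 / 1000 ≤ ‖t‖ ^ (r + 1)) :
    2 * √‖t‖ * (‖1 - t ^ (r - 1)‖ * ‖1 - t ^ (r + 1)‖) +
      ‖t‖ ^ (r - 1) * (1 + ‖t‖) * ‖1 - t‖ ^ 2 ≤ (1 + ‖t‖) * ‖1 - t ^ r‖ ^ 2 := by
  rcases Nat.lt_or_ge r 2 with h2 | h2
  · obtain rfl : r = 1 := by omega
    simp
  -- it is enough to treat a number of nonpositive argument
  have main : ∀ t : ℂ, t ≠ 0 → ‖t‖ < 1 → ‖1 - t‖ ≤ 2 * (1 - ‖t‖) → 292 / 1000 ≤ ‖t‖ ^ (r + 1) →
      (∃ L : ℂ, Complex.exp L = t ∧ L.re = Real.log ‖t‖ ∧ L.im ≤ 0 ∧ -Real.pi ≤ L.im) →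
      2 * √‖t‖ * (‖1 - t ^ (r - 1)‖ * ‖1 - t ^ (r + 1)‖) +
      ‖t‖ ^ (r - 1) * (1 + ‖t‖) * ‖1 - t‖ ^ 2 ≤ (1 + ‖t‖) * ‖1 - t ^ r‖ ^ 2 := by
    intro t h0 h1 hk hh hL
    obtain ⟨L, hL, hLre, hLim, hLpi⟩ := hL
    have hn0 : 0 < ‖t‖ := norm_pos_iff.2 h0
    obtain ⟨a, ha⟩ : ∃ a, a = -(Real.log ‖t‖ / 2) := ⟨_, rfl⟩
    obtain ⟨b, hb⟩ : ∃ b, b = -(L.im / 2) := ⟨_, rfl⟩
    have ha0 : 0 < a := by
      have := Real.log_neg hn0 h1
      rw [ha]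
      linarith
    have hn : ‖t‖ = Real.exp (-(2 * a)) := by
      rw [ha, show -(2 * -(Real.log ‖t‖ / 2)) = Real.log ‖t‖ by ring, Real.exp_log hn0]
    have ht : t = Complex.exp (-2 * ((a : ℂ) + b * Complex.I)) := by
      have e : -2 * ((a : ℂ) + b * Complex.I) = L := by
        apply Complex.ext
        · simp [ha, hLre]
          ring
        · simp [hb]
          ring
      rw [e, hL]
    have ht1 : 1 - t ≠ 0 := by
      intro h
      have h2 : t = 1 := (sub_eq_zero.1 h).symm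
      rw [h2, norm_one] at h1
      exact lt_irrefl _ h1
    have hc := norm_one_sub_pow ht 1
    rw [pow_one, Nat.cast_one, Nat.cast_one, one_mul, one_mul] at hc
    have hz : Complex.sinh ((a : ℂ) + b * Complex.I) ≠ 0 := by
      intro h
      rw [h, norm_zero, mul_zero] at hc
      exact ht1 (norm_eq_zero.1 hc)
    have he : 0 < Real.exp (-a) := Real.exp_pos _
    have hs0 : 0 < Real.sinh a := Real.sinh_pos_iff.2 ha0
    have hz2 : ‖Complex.sinh ((a : ℂ) + b * Complex.I)‖ ≤ 2 * Real.sinh a := by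
      have e : 1 - ‖t‖ = 2 * Real.exp (-a) * Real.sinh a := by
        rw [hn, Real.sinh_eq]
        have e1 : Real.exp (-a) * Real.exp a = 1 := by
          rw [← Real.exp_add, neg_add_cancel, Real.exp_zero]
        have e2 : Real.exp (-(2 * a)) = Real.exp (-a) * Real.exp (-a) := by
          rw [← Real.exp_add]; congr 1; ring
        rw [e2]
        linear_combination (-1 : ℝ) * e1
      rw [e, hc] at hk
      have h3 : 2 * Real.exp (-a) * ‖Complex.sinh ((a : ℂ) + b * Complex.I)‖ ≤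
          2 * Real.exp (-a) * (2 * Real.sinh a) := by linarith
      exact le_of_mul_le_mul_left h3 (by positivity)
    have hsin : Real.sin b ^ 2 ≤ 3 * Real.sinh a ^ 2 := by
      have h3 := norm_sinh_sq a b
      have h4 := pow_le_pow_left₀ (norm_nonneg _) hz2 2
      rw [h3] at h4
      nlinarith
    rw [hn] at hh
    exact Rab h2 ha0 (by rw [hb]; linarith) (by rw [hb]; linarith) ht hn hz hsin (a_bound hh)
  rcases le_or_gt (Complex.log t).im 0 with h3 | h3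
  · exact main t h0 h1 hk hh ⟨Complex.log t, Complex.exp_log h0, Complex.log_re t, h3,
      (Complex.neg_pi_lt_log_im t).le⟩
  · have e1 : ‖(starRingEnd ℂ) t‖ = ‖t‖ := Complex.norm_conj t
    have e2 : ∀ k : ℕ, ‖1 - (starRingEnd ℂ) t ^ k‖ = ‖1 - t ^ k‖ := by
      intro k
      rw [← Complex.norm_conj (1 - t ^ k), map_sub, map_pow, map_one]
    have e3 : ‖1 - (starRingEnd ℂ) t‖ = ‖1 - t‖ := by
      have := e2 1
      rwa [pow_one, pow_one] at this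
    have := main ((starRingEnd ℂ) t) (by simpa using h0) (by rw [e1]; exact h1)
      (by rw [e3, e1]; exact hk) (by rw [e1]; exact hh)
      ⟨(starRingEnd ℂ) (Complex.log t), by rw [Complex.exp_conj, Complex.exp_log h0], by
        rw [Complex.conj_re, e1, Complex.log_re t], by
        rw [Complex.conj_im]; linarith, by
        rw [Complex.conj_im]
        have := Complex.log_im_le_pi t
        linarith⟩
    rw [e1, e2, e2, e2, e3] at this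
    exact this

end Pool.Agent.Helper30.LZ
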