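import Mathlib

/-!
# Taylor bounds for sin, cos, sinh, cosh on the half line
-/

set_option autoImplicit false

namespace Pool.Agent.Helper30.LZ

theorem mono_aux {f f' : ℝ → ℝ} (hf : ∀ x, HasDerivAt f (f' x) x) (h' : ∀ x, 0 ≤ x → 0 ≤ f' x)
    {x : ℝ} (hx : 0 ≤ x) : f 0 ≤ f x := by
  have hd : Differentiable ℝ f := fun y => (hf y).differentiableAt
  refine monotoneOn_of_deriv_nonneg (convex_Ici 0) hd.continuous.continuousOn
    hd.differentiableOn ?_ Set.self_mem_Ici hx hx
  intro y hy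
  rw [interior_Ici] at hy
  rw [(hf y).deriv]
  exact h' y (Set.mem_Ioi.1 hy).le

theorem cos_le_four {x : ℝ} (hx : 0 ≤ x) : Real.cos x ≤ 1 - x ^ 2 / 2 + x ^ 4 / 24 := by
  have h := mono_aux (f := fun y => 1 - y ^ 2 / 2 + y ^ 4 / 24 - Real.cos y)
    (f' := fun y => Real.sin y - (y - y ^ 3 / 6)) (fun y => by
      have h1 := ((((hasDerivAt_const y (1 : ℝ)).sub ((hasDerivAt_pow 2 y).div_const 2)).add
        ((hasDerivAt_pow 4 y).div_const 24)).sub (Real.hasDerivAt_cos y))
      refine h1.congr_deriv ?_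
      norm_num
      ring) (fun y hy => by
        have := Real.sin_ge_sub_cube hy
        linarith) hx
  norm_num at h
  linarith

theorem sin_le_five {x : ℝ} (hx : 0 ≤ x) : Real.sin x ≤ x - x ^ 3 / 6 + x ^ 5 / 120 := by
  have h := mono_aux (f := fun y => y - y ^ 3 / 6 + y ^ 5 / 120 - Real.sin y)
    (f' := fun y => 1 - y ^ 2 / 2 + y ^ 4 / 24 - Real.cos y) (fun y => by
      have h1 := ((((hasDerivAt_id y)).sub ((hasDerivAt_pow 3 y).div_const 6)).add
        ((hasDerivAt_pow 5 y).div_const 120)).sub (Real.hasDerivAt_sin y)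
      refine h1.congr_deriv ?_
      norm_num
      ring) (fun y hy => by
        have := cos_le_four hy
        linarith) hx
  norm_num at h
  linarith

theorem cos_ge_six {x : ℝ} (hx : 0 ≤ x) : 1 - x ^ 2 / 2 + x ^ 4 / 24 - x ^ 6 / 720 ≤ Real.cos x := by
  have h := mono_aux (f := fun y => Real.cos y - (1 - y ^ 2 / 2 + y ^ 4 / 24 - y ^ 6 / 720))
    (f' := fun y => y - y ^ 3 / 6 + y ^ 5 / 120 - Real.sin y) (fun y => by
      have h1 := (Real.hasDerivAt_cos y).sub ((((hasDerivAt_const y (1 : ℝ)).sub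
        ((hasDerivAt_pow 2 y).div_const 2)).add
        ((hasDerivAt_pow 4 y).div_const 24)).sub ((hasDerivAt_pow 6 y).div_const 720))
      refine h1.congr_deriv ?_
      norm_num
      ring) (fun y hy => by
        have := sin_le_five hy
        linarith) hx
  norm_num at h
  linarith

theorem sin_ge_seven {x : ℝ} (hx : 0 ≤ x) :
    x - x ^ 3 / 6 + x ^ 5 / 120 - x ^ 7 / 5040 ≤ Real.sin x := by
  have h := mono_aux (f := fun y => Real.sin y - (y - y ^ 3 / 6 + y ^ 5 / 120 - y ^ 7 / 5040))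
    (f' := fun y => Real.cos y - (1 - y ^ 2 / 2 + y ^ 4 / 24 - y ^ 6 / 720)) (fun y => by
      have h1 := (Real.hasDerivAt_sin y).sub (((((hasDerivAt_id y)).sub
        ((hasDerivAt_pow 3 y).div_const 6)).add
        ((hasDerivAt_pow 5 y).div_const 120)).sub ((hasDerivAt_pow 7 y).div_const 5040))
      refine h1.congr_deriv ?_
      norm_num
      ring) (fun y hy => by
        have := cos_ge_six hy
        linarith) hx
  norm_num at h
  linarith

theorem cosh_ge_two {x : ℝ} (hx : 0 ≤ x) : 1 + x ^ 2 / 2 ≤ Real.cosh x := by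
  have h := mono_aux (f := fun y => Real.cosh y - (1 + y ^ 2 / 2))
    (f' := fun y => Real.sinh y - y) (fun y => by
      have h1 := (Real.hasDerivAt_cosh y).sub ((hasDerivAt_const y (1 : ℝ)).add
        ((hasDerivAt_pow 2 y).div_const 2))
      refine h1.congr_deriv ?_
      norm_num) (fun y hy => by
        have := Real.self_le_sinh_iff.2 hy
        linarith) hx
  norm_num at h
  linarith

theorem sinh_ge_three {x : ℝ} (hx : 0 ≤ x) : x + x ^ 3 / 6 ≤ Real.sinh x := by
  have h := mono_aux (f := fun y => Real.sinh y - (y + y ^ 3 / 6))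
    (f' := fun y => Real.cosh y - (1 + y ^ 2 / 2)) (fun y => by
      have h1 := (Real.hasDerivAt_sinh y).sub ((hasDerivAt_id y).add
        ((hasDerivAt_pow 3 y).div_const 6))
      refine h1.congr_deriv ?_
      norm_num
      ring) (fun y hy => by
        have := cosh_ge_two hy
        linarith) hx
  norm_num at h
  linarith

theorem cosh_ge_four {x : ℝ} (hx : 0 ≤ x) : 1 + x ^ 2 / 2 + x ^ 4 / 24 ≤ Real.cosh x := by
  have h := mono_aux (f := fun y => Real.cosh y - (1 + y ^ 2 / 2 + y ^ 4 / 24))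
    (f' := fun y => Real.sinh y - (y + y ^ 3 / 6)) (fun y => by
      have h1 := (Real.hasDerivAt_cosh y).sub (((hasDerivAt_const y (1 : ℝ)).add
        ((hasDerivAt_pow 2 y).div_const 2)).add ((hasDerivAt_pow 4 y).div_const 24))
      refine h1.congr_deriv ?_
      norm_num
      ring) (fun y hy => by
        have := sinh_ge_three hy
        linarith) hx
  norm_num at h
  linarith

theorem sinh_ge_five {x : ℝ} (hx : 0 ≤ x) : x + x ^ 3 / 6 + x ^ 5 / 120 ≤ Real.sinh x := by
  have h := mono_aux (f := fun y => Real.sinh y - (y + y ^ 3 / 6 + y ^ 5 / 120))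
    (f' := fun y => Real.cosh y - (1 + y ^ 2 / 2 + y ^ 4 / 24)) (fun y => by
      have h1 := (Real.hasDerivAt_sinh y).sub (((hasDerivAt_id y).add
        ((hasDerivAt_pow 3 y).div_const 6)).add ((hasDerivAt_pow 5 y).div_const 120))
      refine h1.congr_deriv ?_
      norm_num
      ring) (fun y hy => by
        have := cosh_ge_four hy
        linarith) hx
  norm_num at h
  linarith

theorem cosh_le_six {x : ℝ} (hx : 0 ≤ x) (hx1 : x ≤ 1) :
    Real.cosh x ≤ 1 + x ^ 2 / 2 + x ^ 4 / 24 + x ^ 6 / 700 := by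
  have h1 := abs_le.1 (Real.exp_bound (x := x) (by rw [abs_of_nonneg hx]; exact hx1)
    (n := 8) (by norm_num))
  have h2 := abs_le.1 (Real.exp_bound (x := -x) (by rw [abs_neg, abs_of_nonneg hx]; exact hx1)
    (n := 8) (by norm_num))
  rw [abs_of_nonneg hx] at h1
  rw [abs_neg, abs_of_nonneg hx] at h2
  rw [Real.cosh_eq]
  simp only [Finset.sum_range_succ, Finset.sum_range_zero, Nat.factorial] at h1 h2
  norm_num at h1 h2
  have h3 : x ^ 8 ≤ x ^ 6 := pow_le_pow_of_le_one hx hx1 (by norm_num)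
  have h4 : 0 ≤ x ^ 6 := by positivity
  nlinarith [h1.2, h2.2]

theorem sinh_le_three {x : ℝ} (hx : 0 ≤ x) (hx1 : x ≤ 1 / 2) :
    Real.sinh x ≤ x + x ^ 3 / 5 := by
  have h1 := abs_le.1 (Real.exp_bound (x := x) (by rw [abs_of_nonneg hx]; linarith)
    (n := 4) (by norm_num))
  have h2 := abs_le.1 (Real.exp_bound (x := -x) (by rw [abs_neg, abs_of_nonneg hx]; linarith)
    (n := 4) (by norm_num))
  rw [abs_of_nonneg hx] at h1
  rw [abs_neg, abs_of_nonneg hx] at h2
  rw [Real.sinh_eq]
  simp only [Finset.sum_range_succ, Finset.sum_range_zero, Nat.factorial] at h1 h2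
  norm_num at h1 h2
  have h3 : x ^ 4 ≤ x ^ 3 * (1 / 2) := by
    have : x ^ 4 = x ^ 3 * x := by ring
    rw [this]
    gcongr
  have h4 : 0 ≤ x ^ 3 := by positivity
  nlinarith [h1.2, h2.1]

end Pool.Agent.Helper30.LZ
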